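import Pool.Agent.Helper89.AG.Fin

/-!
# The transcendence of `ζ(3)` and the generating functions of Apéry's numbers

Let `a_n`, `b_n` be Apéry's numbers for `ζ(3)` (`b_n / a_n → ζ(3)`), `A_1(z) = ∑ a_n z^n`, `B_1(z) = ∑ b_n z^n`; let `A_0`,
`B_0` be the corresponding functions for `ζ(2) = π² / 6` (with signs). For `0 ≤ t < (√2 - 1)^4` the integrals

`J_1(t) = 1/2 ∫ dx dy dw / (1 - (1 - x y) w - t x y w (1 - x) (1 - y) (1 - w))`,
`J_0(t) = ∫ dx dy / (1 - x y - t x y (1 - x) (1 - y))`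

over the unit cube and the unit square are `J_1 = ζ(3) A_1 - B_1`, `J_0 = ζ(2) A_0 - B_0` (Beukers's integrals summed up).
So if `ζ(3)` is algebraic, then for all rational `q` the numbers `B_1(q) / A_1(q)` and `J_1(q) / A_1(q)` satisfy a
relation of bounded degree and height. (Equivalently, `A_1(q)`, `B_1(q)`, `J_1(q)` satisfy a homogeneous relation.)

We prove the converse in the strongest sense in which counting can give it: if `ζ(3)` is transcendental, then relations of
any fixed degree and of height at most a fixed power of the height of `q` exist only for `O(T^ε)` of the rational `q` of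
height at most `T` in a compact interval. So one point `q` for each degree and exponent suffices for the transcendence of
`ζ(3)`. The same holds for any subset of `{ζ(2), ζ(3)}` and arbitrary further complex numbers `ξ_1, …, ξ_g`; so for
instance `π` and `ζ(3)` are algebraically independent if and only if for each degree and exponent there is one rational `q`
for which the four numbers `B_i(q) / A_i(q)`, `J_i(q) / A_i(q)` are unrelated.

The new fact on the functions: `B_0` and `B_1` are algebraically independent over the field of fractions of `ℤ[[z]]`. (The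
coefficients of `z^p` in `B_0`, `B_1` have the exact denominators `p²`, `p³` for each prime `p ≥ 7`, and those of `z^n`,
`n < p`, are `p`-integral; compare the coefficients of `z^{p + k}` in a relation of minimal degree.)
-/

set_option autoImplicit false

open NumberField
open scoped PowerSeries

namespace Pool.Agent.Results.MP_48b3e2_nt.AperyGeneratingFunctions

/-- the solution of Apéry's recurrence for `ζ(3)` with initial values `x`, `y` -/
def apery3 (x y : ℚ) : ℕ → ℚ
  | 0 => x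
  | 1 => y
  | n + 2 => ((34 * ((n : ℚ) + 1) ^ 3 + 51 * ((n : ℚ) + 1) ^ 2 + 27 * ((n : ℚ) + 1) + 5) * apery3 x y (n + 1) -
      ((n : ℚ) + 1) ^ 3 * apery3 x y n) / ((n : ℚ) + 2) ^ 3

/-- the solution of Apéry's recurrence for `ζ(2)` (with alternating signs) with initial values `x`, `y` -/
def apery2 (x y : ℚ) : ℕ → ℚ
  | 0 => x
  | 1 => y
  | n + 2 => (-(11 * ((n : ℚ) + 1) ^ 2 + 11 * ((n : ℚ) + 1) + 3) * apery2 x y (n + 1) +
      ((n : ℚ) + 1) ^ 2 * apery2 x y n) / ((n : ℚ) + 2) ^ 2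

/-- Apéry's denominators `a_n` for `ζ(2)` (`i = 0`) and `ζ(3)` (`i = 1`) -/
def a : Fin 2 → ℕ → ℚ := ![apery2 1 (-3), apery3 1 5]

/-- Apéry's numerators `b_n` for `ζ(2)` (`i = 0`) and `ζ(3)` (`i = 1`) -/
def b : Fin 2 → ℕ → ℚ := ![apery2 0 (-5), apery3 0 6]

/-- `A_i(z) = ∑ a_n z^n` -/
noncomputable def A (i : Fin 2) (z : ℂ) : ℂ := ∑' n, (a i n : ℂ) * z ^ n

/-- `B_i(z) = ∑ b_n z^n` -/
noncomputable def B (i : Fin 2) (z : ℂ) : ℂ := ∑' n, (b i n : ℂ) * z ^ n

/-- the radius of convergence `(√2 - 1)^4` of `A_1` and `B_1` -/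
noncomputable def r : ℝ := (√2 - 1) ^ 4

/-- the integral `J_0(t) = ∫ dx dy / (1 - x y - t x y (1 - x) (1 - y))` over the unit square -/
noncomputable def J₀ (t : ℝ) : ℝ := ∫ p : ℝ × ℝ in Set.Ioo 0 1 ×ˢ Set.Ioo 0 1,
  1 / (1 - p.1 * p.2 - t * (p.1 * p.2 * (1 - p.1) * (1 - p.2)))

/-- the integral `J_1(t) = 1/2 ∫ dx dy dw / (1 - (1 - x y) w - t x y w (1 - x) (1 - y) (1 - w))` over the unit cube -/
noncomputable def J₁ (t : ℝ) : ℝ := 1 / 2 * ∫ p : ℝ × ℝ × ℝ in Set.Ioo 0 1 ×ˢ Set.Ioo 0 1 ×ˢ Set.Ioo 0 1,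
  1 / (1 - (1 - p.1 * p.2.1) * p.2.2 - t * (p.1 * p.2.1 * p.2.2 * (1 - p.1) * (1 - p.2.1) * (1 - p.2.2)))

/-- the two integrals -/
noncomputable def J : Fin 2 → ℝ → ℝ := ![J₀, J₁]

/-- the height of a rational number: the maximum of the absolute values of numerator and denominator -/
def height (q : ℚ) : ℕ := max q.num.natAbs q.den

/-- The numbers `v` satisfy a nontrivial polynomial relation of total degree at most `d` with integral coefficients of
absolute value at most `H`. -/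
def Related {σ : Type} (v : σ → ℂ) (d : ℕ) (H : ℝ) : Prop :=
  ∃ P : MvPolynomial σ ℤ, P ≠ 0 ∧ P.totalDegree ≤ d ∧ (∀ s, |((P.coeff s : ℤ) : ℝ)| ≤ H) ∧ MvPolynomial.aeval v P = 0

/-- the constants `ζ(i + 2)`, `i ∈ s`, and `ξ_1, …, ξ_g` -/
noncomputable def constants (s : Finset (Fin 2)) {g : ℕ} (ξ : Fin g → ℂ) : s ⊕ Fin g → ℂ :=
  Sum.elim (fun i => ![riemannZeta 2, riemannZeta 3] i) ξ

/-- the numbers `B_i(q) / A_i(q)`, `J_i(q) / A_i(q)`, `i ∈ s`, and `ξ_1, …, ξ_g` -/
noncomputable def numbers (s : Finset (Fin 2)) {g : ℕ} (ξ : Fin g → ℂ) (q : ℚ) : s ⊕ (s ⊕ Fin g) → ℂ :=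
  Sum.elim (fun i => B i q / A i q) (Sum.elim (fun i => (J i q : ℂ) / A i q) ξ)

/-- The elements of the number field `K` with image in `L` which are quotients of two integers of `K` all of whose
conjugates have absolute value at most `T`. -/
def Points (K : Type) [Field K] [NumberField K] (ι : K →+* ℂ) (L : Set ℂ) (T : ℝ) : Set K :=
  {x | ι x ∈ L ∧ ∃ a b : 𝓞 K, b ≠ 0 ∧ (∀ φ : K →+* ℂ, ‖φ a‖ ≤ T ∧ ‖φ b‖ ≤ T) ∧ x = a / b}

/-- Transfer of near relations at the tuple `x`: for all polynomials `P` with integers of `K` as coefficients, of degree at most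
`d` in each variable, with all conjugates of the coefficients at most `T ^ E`, and ALL complex `w`,
`|P(w, ξ)| ≤ (T max(1, |w|)) ^ D |P(v, ξ)|`, where `v` consists of the numbers `B_i(x_j) / A_i(x_j)`. -/
def Transfer {n g : ℕ} (K : Type) [Field K] [NumberField K] (ι : K →+* ℂ) (ξ : Fin g → ℂ) (d D : ℕ) (E T : ℝ)
    (x : Fin n → K) : Prop :=
  ∀ P : MvPolynomial ((Fin n × Fin 2) ⊕ Fin g) (𝓞 K), (∀ i, P.degreeOf i ≤ d) →
    (∀ s (φ : K →+* ℂ), ‖φ ((P.coeff s : 𝓞 K) : K)‖ ≤ T ^ E) → ∀ w : Fin n × Fin 2 → ℂ,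
      ‖P.eval₂ (ι.comp (algebraMap (𝓞 K) K)) (Sum.elim w ξ)‖ ≤
        (T * max 1 ‖w‖) ^ D *
          ‖P.eval₂ (ι.comp (algebraMap (𝓞 K) K)) (Sum.elim (fun z => B z.2 (ι (x z.1)) / A z.2 (ι (x z.1))) ξ)‖

/-- (1) the linear forms; (2) algebraic independence of `B_0`, `B_1` over the integral power series; (3) the criterion for the
transcendence of `ζ(3)`, by one point for each degree and exponent, and by the number of exceptions; (4) the same for the
algebraic independence of a subset of `{ζ(2), ζ(3)}` together with arbitrary complex numbers; (5) transfer of near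
relations at almost all tuples of points of number fields. -/
theorem result :
    (∀ t : ℝ, 0 ≤ t → t < r → (A 0 t ≠ 0 ∧ (J₀ t : ℂ) = riemannZeta 2 * A 0 t - B 0 t) ∧
      A 1 t ≠ 0 ∧ (J₁ t : ℂ) = riemannZeta 3 * A 1 t - B 1 t) ∧
    (∀ P : MvPolynomial (Fin 2) ℤ⟦X⟧, P ≠ 0 →
      P.eval₂ (PowerSeries.map (Int.castRingHom ℚ)) (fun i => PowerSeries.mk (b i)) ≠ 0) ∧
    ((Transcendental ℚ (riemannZeta 3) ↔
        ∀ d E : ℕ, ∃ q : ℚ, 0 < q ∧ (q : ℝ) < r ∧ ¬ Related ![B 1 q / A 1 q, J₁ q / A 1 q] d ((height q : ℝ) ^ E)) ∧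
      (Transcendental ℚ (riemannZeta 3) ↔
        ∀ (d E : ℕ) (α β ε : ℝ), 0 < α → β < r → 0 < ε → ∃ C : ℝ, ∀ T : ℕ, 1 ≤ T →
          ({q : ℚ | α ≤ q ∧ (q : ℝ) ≤ β ∧ height q ≤ T ∧
            Related ![B 1 q / A 1 q, J₁ q / A 1 q] d ((T : ℝ) ^ E)}.ncard : ℝ) ≤ C * (T : ℝ) ^ ε)) ∧
    (∀ (s : Finset (Fin 2)) (g : ℕ) (ξ : Fin g → ℂ),
      (AlgebraicIndependent ℚ (constants s ξ) ↔
        ∀ d E : ℕ, ∃ q : ℚ, 0 < q ∧ (q : ℝ) < r ∧ ¬ Related (numbers s ξ q) d ((height q : ℝ) ^ E)) ∧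
      (AlgebraicIndependent ℚ (constants s ξ) ↔
        ∀ (d E : ℕ) (α β ε : ℝ), 0 < α → β < r → 0 < ε → ∃ C : ℝ, ∀ T : ℕ, 1 ≤ T →
          ({q : ℚ | α ≤ q ∧ (q : ℝ) ≤ β ∧ height q ≤ T ∧ Related (numbers s ξ q) d ((T : ℝ) ^ E)}.ncard : ℝ) ≤
            C * (T : ℝ) ^ ε)) ∧
    ∀ (m n g d : ℕ) (L : Set ℂ), IsCompact L → (∀ z ∈ L, ‖z‖ < r ∧ A 1 z ≠ 0) → ∀ E ε : ℝ, 0 < ε →
      ∃ (D : ℕ) (C T₀ : ℝ), ∀ (K : Type) [Field K] [NumberField K], Module.finrank ℚ K ≤ m → ∀ (ι : K →+* ℂ)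
        (ξ : Fin g → ℂ) (T : ℝ), T₀ ≤ T →
        {x : Fin n → K | (∀ j, x j ∈ Points K ι L T) ∧ ¬ Transfer K ι ξ d D E T x}.Finite ∧
        ({x : Fin n → K | (∀ j, x j ∈ Points K ι L T) ∧ ¬ Transfer K ι ξ d D E T x}.ncard : ℝ) ≤
          C * T ^ ε * ((Points K ι L T).ncard : ℝ) ^ (n - 1) := by
  classical
  have s3 : ∀ x y n, apery3 x y n = Helper89.AG.sol3 x y n := by
    intro x y n
    induction n using Nat.strong_induction_on with
    | _ n ih =>
      match n, ih with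
      | 0, _ => rfl
      | 1, _ => rfl
      | n + 2, ih => rw [apery3, Helper89.AG.sol3, ih n (by omega), ih (n + 1) (by omega)]
  have s2 : ∀ x y n, apery2 x y n = Helper89.AG.sol2 x y n := by
    intro x y n
    induction n using Nat.strong_induction_on with
    | _ n ih =>
      match n, ih with
      | 0, _ => rfl
      | 1, _ => rfl
      | n + 2, ih => rw [apery2, Helper89.AG.sol2, ih n (by omega), ih (n + 1) (by omega)]
  have ha : a = Helper89.AG.av := by
    funext i n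
    fin_cases i
    · exact s2 _ _ n
    · exact s3 _ _ n
  have hb : b = Helper89.AG.bv := by
    funext i n
    fin_cases i
    · exact s2 _ _ n
    · exact s3 _ _ n
  have hA : ∀ i z, A i z = Helper89.AG.gen (Helper89.AG.av i) z := by
    intro i z
    rw [A, ha]
    rfl
  have hB : ∀ i z, B i z = Helper89.AG.gen (Helper89.AG.bv i) z := by
    intro i z
    rw [B, hb]
    rfl
  have hJ : J = Helper89.AG.Jv := rfl
  have hr : r = Helper89.AG.ra := rfl
  have hcast : ∀ q : ℚ, ((q : ℝ) : ℂ) = (q : ℂ) := fun q => by push_cast; rfl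
  -- the values
  have hvals : ∀ (s : Finset (Fin 2)) (g : ℕ) (ξ : Fin g → ℂ) (q : ℚ), numbers s ξ q =
      Helper8.EI.vals (fun (k : s) z => Helper89.AG.R (k : Fin 2) z) (fun q k => Helper89.AG.Yv (k : Fin 2) q) ξ q := by
    intro s g ξ q
    funext i
    rcases i with i | i | i
    · change B i q / A i q = Helper89.AG.R i q
      rw [hA, hB]
      rfl
    · change (J i q : ℂ) / A i q = Helper89.AG.Yv i q
      rw [hA]
      rfl
    · rfl
  have hconst : ∀ (s : Finset (Fin 2)) (g : ℕ) (ξ : Fin g → ℂ), constants s ξ =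
      Sum.elim (fun k : s => Helper89.AG.zv (k : Fin 2)) ξ := fun s g ξ => rfl
  have hgen : ∀ (s : Finset (Fin 2)) (g : ℕ) (ξ : Fin g → ℂ),
      (AlgebraicIndependent ℚ (constants s ξ) ↔
        ∀ d E : ℕ, ∃ q : ℚ, 0 < q ∧ (q : ℝ) < r ∧ ¬ Related (numbers s ξ q) d ((height q : ℝ) ^ E)) ∧
      (AlgebraicIndependent ℚ (constants s ξ) ↔
        ∀ (d E : ℕ) (α β ε : ℝ), 0 < α → β < r → 0 < ε → ∃ C : ℝ, ∀ T : ℕ, 1 ≤ T →
          ({q : ℚ | α ≤ q ∧ (q : ℝ) ≤ β ∧ height q ≤ T ∧ Related (numbers s ξ q) d ((T : ℝ) ^ E)}.ncard : ℝ) ≤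
            C * (T : ℝ) ^ ε) := by
    intro s g ξ
    simp only [hvals]
    exact Helper89.AG.crit_apery (κ := s) (ι := fun k => (k : Fin 2)) Subtype.val_injective ξ
  refine ⟨?_, ?_, ?_, hgen, ?_⟩
  · intro t ht0 ht
    refine ⟨⟨?_, ?_⟩, ?_, ?_⟩
    · rw [hA]
      exact Helper89.AG.gen_av_ne 0 ht0 ht
    · rw [hA, hB]
      exact Helper89.AG.J_lin 0 ht0 ht
    · rw [hA]
      exact Helper89.AG.gen_av_ne 1 ht0 ht
    · rw [hA, hB]
      exact Helper89.AG.J_lin 1 ht0 ht
  · intro P hP h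
    rw [hb] at h
    exact hP (Helper89.AG.core_bv (ι := id) Function.injective_id P h)
  · obtain ⟨c1, c2⟩ := hgen {1} 0 Fin.elim0
    set o : ({1} : Finset (Fin 2)) := ⟨1, Finset.mem_singleton_self 1⟩ with ho
    have huniq : ∀ i : ({1} : Finset (Fin 2)), i = o := fun i => Subtype.ext (Finset.mem_singleton.1 i.2)
    haveI : Unique (({1} : Finset (Fin 2)) ⊕ Fin 0) :=
      ⟨⟨Sum.inl o⟩, by
        rintro (i | i)
        · rw [huniq i]
          rfl
        · exact i.elim0⟩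
    have hT : Transcendental ℚ (riemannZeta 3) ↔
        AlgebraicIndependent ℚ (constants {1} (Fin.elim0 : Fin 0 → ℂ)) := by
      have h1 : constants {1} (Fin.elim0 : Fin 0 → ℂ) = fun _ => riemannZeta 3 := by
        funext i
        rcases i with i | i
        · rw [huniq i]
          rfl
        · exact i.elim0
      rw [h1]
      exact (algebraicIndependent_unique_type_iff (R := ℚ)
        (x := fun _ : ({1} : Finset (Fin 2)) ⊕ Fin 0 => riemannZeta 3)).symm
    set e : ({1} : Finset (Fin 2)) ⊕ (({1} : Finset (Fin 2)) ⊕ Fin 0) ≃ Fin 2 :=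
      { toFun := Sum.elim (fun _ => 0) (Sum.elim (fun _ => 1) fun i => i.elim0)
        invFun := fun i => if i = 0 then Sum.inl o else Sum.inr (Sum.inl o)
        left_inv := by
          rintro (i | i | i)
          · rw [huniq i]
            rfl
          · rw [huniq i]
            rfl
          · exact i.elim0
        right_inv := by
          intro i
          fin_cases i <;> rfl } with he
    have hrel : ∀ (q : ℚ) (d : ℕ) (H : ℝ), Related ![B 1 q / A 1 q, J₁ q / A 1 q] d H ↔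
        Related (numbers {1} (Fin.elim0 : Fin 0 → ℂ) q) d H := by
      intro q d H
      have h1 : ![B 1 q / A 1 q, J₁ q / A 1 q] ∘ e = numbers {1} (Fin.elim0 : Fin 0 → ℂ) q := by
        funext i
        rcases i with i | i | i
        · rw [huniq i]
          rfl
        · rw [huniq i]
          rfl
        · exact i.elim0
      rw [← h1]
      exact (Helper89.AG.Relat_equiv' e d H _).symm
    simp only [hrel]
    exact ⟨hT.trans c1, hT.trans c2⟩
  · intro m n g d L hL hL' E ε hε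
    have hA0 : ∀ z ∈ L, ∀ i, Helper89.AG.gen (Helper89.AG.av i) z ≠ 0 := by
      intro z hz i
      fin_cases i
      · exact Helper89.AG.gen_a2_ne (hL' z hz).1
      · have := (hL' z hz).2
        rwa [hA] at this
    obtain ⟨D, C, T₀, hC, hT₀, H⟩ := Helper89.AG.transferU (κ := Fin 2) (h := Fin g) (fun i z => Helper89.AG.R i z) L hL
      (fun i z hz => Helper89.AG.R_an i (hL' z hz).1 (hA0 z hz i))
      (fun z hz => Helper89.AG.R_ind (ι := id) Function.injective_id (hL' z hz).1 fun i => hA0 z hz i) m n d E ε hε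
    refine ⟨D, C, T₀, fun K _ _ hK ι ξ T hT => ?_⟩
    have hT0 : 0 ≤ T := by linarith
    obtain ⟨H1, H2⟩ := H K hK ι ξ T hT
    have hP : Points K ι L T = {x : K | Y120.HtLe K T x ∧ ι x ∈ L} := by
      ext x
      constructor
      · rintro ⟨h1, a, b, hb, hab, hx⟩
        exact ⟨⟨a, b, hb, Y120.house_le K hT0 fun φ => (hab φ).1, Y120.house_le K hT0 fun φ => (hab φ).2, hx⟩, h1⟩
      · rintro ⟨⟨a, b, hb, ha, hb', hx⟩, h1⟩
        exact ⟨h1, a, b, hb, fun φ => ⟨(Y120.house_ge K _ φ).trans ha, (Y120.house_ge K _ φ).trans hb'⟩, hx⟩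
    have hsub : {x : Fin n → K | (∀ j, x j ∈ Points K ι L T) ∧ ¬ Transfer K ι ξ d D E T x} ⊆
        {x : Fin n → K | (∀ j, Y120.HtLe K T (x j) ∧ ι (x j) ∈ L) ∧
          ¬ Helper8.EI.GoodAt d D (T ^ E) T ι ξ (fun z : Fin n × Fin 2 => Helper89.AG.R z.2 (ι (x z.1)))} := by
      rintro x ⟨hx, hbad⟩
      have hx' : ∀ j, Y120.HtLe K T (x j) ∧ ι (x j) ∈ L := by
        intro j
        have h1 := hx j
        rw [hP] at h1
        exact h1
      refine ⟨hx', fun hgood => hbad ?_⟩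
      intro P hPd hPc w
      have h1 := hgood P hPd hPc w
      have h2 : (fun z : Fin n × Fin 2 => B z.2 (ι (x z.1)) / A z.2 (ι (x z.1))) =
          fun z : Fin n × Fin 2 => Helper89.AG.R z.2 (ι (x z.1)) := by
        funext z
        rw [hA, hB]
        rfl
      rw [h2]
      exact h1
    refine ⟨H1.subset hsub, ?_⟩
    rw [← hP] at H2
    exact le_trans (by exact_mod_cast Set.ncard_le_ncard hsub H1) H2

end Pool.Agent.Results.MP_48b3e2_nt.AperyGeneratingFunctions
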