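import Pool.Agent.Helper8.EI.FData

/-!
# The transcendence of `ζ(3)` and the values of an Eichler integral at rational points

For `Re z > 0` let `F(z) = ∑_{m ≥ 1 odd} m^(-3) (1 / (e^(π m z) + 1) - (1/2) / (e^(2 π m z) + 1))`. This is an Eichler
integral of an Eisenstein series of weight four, written without the number `ζ(3)`, and

`F(z) - 2 z² F(1/(2z)) = (7/32) (1 - 2 z²) ζ(3)`

(a relation of Ramanujan's type; the level is chosen such that no power of `π` occurs). So if `ζ(3)` is algebraic, then for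
ALL rational `q` the numbers `F(q)` and `F(1/(2q))` satisfy a relation of bounded degree whose height is bounded by a
fixed power of the height of `q`. We prove the converse in the strongest sense in which counting can give it: if `ζ(3)` is
transcendental then such relations, of any fixed degree and polynomially bounded height, exist only for `O(T^ε)` of the
rational numbers of height at most `T` in an interval; so one point `q` for each degree and exponent suffices for the
transcendence of `ζ(3)`. The same holds for `ζ(3)` together with arbitrary complex numbers `ξ_1, …, ξ_g`. Behind this is a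
transfer of near relations at almost all tuples of points of number fields, with constants independent of `ζ(3)` and the `ξ_i`.

Proof: the relation by partial fractions; `F` has the period `2 i` and is not constant, so it is transcendental over `ℂ(z)`;
the counting theorem for near relations with arbitrary constants as coefficients is `Pool.Agent.Y124.excNF` of the library;
elimination with the relation above.
-/

set_option autoImplicit false

open NumberField

namespace Pool.Agent.Results.MP_48b3e2_nt.EichlerCriterion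

/-- `F(z) = ∑_{m ≥ 1 odd} m^(-3) (1 / (e^(π m z) + 1) - (1/2) / (e^(2 π m z) + 1))`, used for `Re z > 0` only -/
noncomputable def F (z : ℂ) : ℂ :=
  ∑' n : ℕ, 1 / (2 * (n : ℂ) + 1) ^ 3 * (1 / (Complex.exp (Real.pi * (2 * n + 1) * z) + 1) -
    1 / 2 * (1 / (Complex.exp (2 * Real.pi * (2 * n + 1) * z) + 1)))

/-- the height of a rational number: the maximum of the absolute values of numerator and denominator -/
def height (q : ℚ) : ℕ := max q.num.natAbs q.den

/-- The numbers `v` satisfy a nontrivial polynomial relation of total degree at most `d` with integral coefficients of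
absolute value at most `H`. -/
def Related {σ : Type} (v : σ → ℂ) (d : ℕ) (H : ℝ) : Prop :=
  ∃ P : MvPolynomial σ ℤ, P ≠ 0 ∧ P.totalDegree ≤ d ∧ (∀ s, |((P.coeff s : ℤ) : ℝ)| ≤ H) ∧ MvPolynomial.aeval v P = 0

/-- the numbers `F(q)`, `F(1/(2q))`, `ξ_1, …, ξ_g` -/
noncomputable def numbers {g : ℕ} (ξ : Fin g → ℂ) (q : ℚ) : Fin 2 ⊕ Fin g → ℂ :=
  Sum.elim ![F (q : ℂ), F (1 / (2 * (q : ℂ)))] ξ

/-- the constants `ζ(3), ξ_1, …, ξ_g` -/
noncomputable def constants {g : ℕ} (ξ : Fin g → ℂ) : Fin (g + 1) → ℂ := Fin.cons (riemannZeta 3) ξ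

/-- The elements of the number field `K` with image in `L` which are quotients of two integers of `K` all of whose
conjugates have absolute value at most `T`. -/
def Points (K : Type) [Field K] [NumberField K] (ι : K →+* ℂ) (L : Set ℂ) (T : ℝ) : Set K :=
  {x | ι x ∈ L ∧ ∃ a b : 𝓞 K, b ≠ 0 ∧ (∀ φ : K →+* ℂ, ‖φ a‖ ≤ T ∧ ‖φ b‖ ≤ T) ∧ x = a / b}

/-- Transfer of near relations at the tuple `x`: for all polynomials `P` with integers of `K` as coefficients, of degree at most
`d` in each variable, with all conjugates of the coefficients at most `T ^ A`, and ALL complex `w`,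
`|P(w, ζ(3), ξ)| ≤ (T max(1, |w|)) ^ B |P(F(x_1), …, F(x_n), ζ(3), ξ)|`. -/
def Transfer {n g : ℕ} (K : Type) [Field K] [NumberField K] (ι : K →+* ℂ) (ξ : Fin g → ℂ) (d B : ℕ) (A T : ℝ)
    (x : Fin n → K) : Prop :=
  ∀ P : MvPolynomial (Fin n ⊕ Fin (g + 1)) (𝓞 K), (∀ i, P.degreeOf i ≤ d) →
    (∀ s (φ : K →+* ℂ), ‖φ ((P.coeff s : 𝓞 K) : K)‖ ≤ T ^ A) → ∀ w : Fin n → ℂ,
      ‖P.eval₂ (ι.comp (algebraMap (𝓞 K) K)) (Sum.elim w (constants ξ))‖ ≤
        (T * max 1 ‖w‖) ^ B *
          ‖P.eval₂ (ι.comp (algebraMap (𝓞 K) K)) (Sum.elim (fun j => F (ι (x j))) (constants ξ))‖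

/-- (1) the relation; (2) the criterion for the transcendence of `ζ(3)`, by one point for each degree and exponent, and by the
number of exceptions; (3) the same for `ζ(3)` with arbitrary further complex numbers; (4) transfer of near relations at
almost all tuples of points of number fields. -/
theorem result :
    (∀ z : ℂ, 0 < z.re → F z - 2 * z ^ 2 * F (1 / (2 * z)) = 7 / 32 * (1 - 2 * z ^ 2) * riemannZeta 3) ∧
    ((Transcendental ℚ (riemannZeta 3) ↔
        ∀ d A : ℕ, ∃ q : ℚ, 0 < q ∧ q ≠ 1 ∧ ¬ Related ![F (q : ℂ), F (1 / (2 * (q : ℂ)))] d ((height q : ℝ) ^ A)) ∧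
      (Transcendental ℚ (riemannZeta 3) ↔
        ∀ (d A : ℕ) (a b ε : ℝ), 0 < a → 0 < ε → ∃ C : ℝ, ∀ T : ℕ, 1 ≤ T →
          ({q : ℚ | a ≤ q ∧ (q : ℝ) ≤ b ∧ q ≠ 1 ∧ height q ≤ T ∧
            Related ![F (q : ℂ), F (1 / (2 * (q : ℂ)))] d ((T : ℝ) ^ A)}.ncard : ℝ) ≤ C * (T : ℝ) ^ ε)) ∧
    (∀ (g : ℕ) (ξ : Fin g → ℂ),
      (AlgebraicIndependent ℚ (constants ξ) ↔
        ∀ d A : ℕ, ∃ q : ℚ, 0 < q ∧ q ≠ 1 ∧ ¬ Related (numbers ξ q) d ((height q : ℝ) ^ A)) ∧
      (AlgebraicIndependent ℚ (constants ξ) ↔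
        ∀ (d A : ℕ) (a b ε : ℝ), 0 < a → 0 < ε → ∃ C : ℝ, ∀ T : ℕ, 1 ≤ T →
          ({q : ℚ | a ≤ q ∧ (q : ℝ) ≤ b ∧ q ≠ 1 ∧ height q ≤ T ∧ Related (numbers ξ q) d ((T : ℝ) ^ A)}.ncard : ℝ) ≤
            C * (T : ℝ) ^ ε)) ∧
    ∀ (m n g d : ℕ) (L : Set ℂ), IsCompact L → (∀ z ∈ L, 0 < z.re) → ∀ A ε : ℝ, 0 < ε →
      ∃ (B : ℕ) (C T₀ : ℝ), ∀ (K : Type) [Field K] [NumberField K], Module.finrank ℚ K ≤ m → ∀ (ι : K →+* ℂ)
        (ξ : Fin g → ℂ) (T : ℝ), T₀ ≤ T →
        {x : Fin n → K | (∀ j, x j ∈ Points K ι L T) ∧ ¬ Transfer K ι ξ d B A T x}.Finite ∧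
        ({x : Fin n → K | (∀ j, x j ∈ Points K ι L T) ∧ ¬ Transfer K ι ξ d B A T x}.ncard : ℝ) ≤
          C * T ^ ε * ((Points K ι L T).ncard : ℝ) ^ (n - 1) := by
  classical
  have hF : ∀ z : ℂ, 0 < z.re → F z = Helper8.EI.FF z := fun z hz => (Helper8.EI.FF_odd hz).symm
  have hZ : Helper8.EI.ZZ 3 = riemannZeta 3 := by
    have := Helper8.EI.ZZ_zeta (k := 3) (by norm_num)
    simpa using this
  have hre : ∀ z : ℂ, 0 < z.re → 0 < (1 / (2 * z)).re := by
    intro z hz
    refine Helper8.EI.re_inv_pos ?_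
    simpa using hz
  have hqre : ∀ q : ℚ, 0 < q → 0 < ((q : ℂ)).re := by
    intro q hq
    have : ((q : ℂ)).re = (q : ℝ) := by simp
    rw [this]
    exact_mod_cast hq
  -- reindexing of the constants
  set e₁ : ∀ g : ℕ, Fin 1 ⊕ Fin g ≃ Fin (g + 1) := fun g =>
    { toFun := Sum.elim (fun _ => 0) Fin.succ
      invFun := Fin.cases (Sum.inl 0) Sum.inr
      left_inv := by
        rintro (i | i)
        · rw [Subsingleton.elim i 0]
          rfl
        · rfl
      right_inv := by
        intro i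
        refine Fin.cases ?_ (fun j => ?_) i
        · rfl
        · rfl } with he₁
  have hconst : ∀ (g : ℕ) (ξ : Fin g → ℂ), constants ξ ∘ e₁ g = Sum.elim (fun _ : Fin 1 => Helper8.EI.ZZ 3) ξ := by
    intro g ξ
    funext i
    rcases i with i | i
    · change constants ξ 0 = Helper8.EI.ZZ 3
      rw [hZ]
      rfl
    · rfl
  have hAI : ∀ (g : ℕ) (ξ : Fin g → ℂ), AlgebraicIndependent ℚ (constants ξ) ↔
      AlgebraicIndependent ℚ (Sum.elim (fun _ : Fin 1 => Helper8.EI.ZZ 3) ξ) := by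
    intro g ξ
    rw [← hconst]
    exact (algebraicIndependent_equiv (e₁ g)).symm
  -- reindexing of the values
  set e₂ : ∀ g : ℕ, Fin 1 ⊕ (Fin 1 ⊕ Fin g) ≃ Fin 2 ⊕ Fin g := fun g =>
    { toFun := Sum.elim (fun _ => Sum.inl 0) (Sum.elim (fun _ => Sum.inl 1) Sum.inr)
      invFun := Sum.elim (fun i => if i = 0 then Sum.inl 0 else Sum.inr (Sum.inl 0)) fun j => Sum.inr (Sum.inr j)
      left_inv := by
        rintro (i | i | i)
        · rw [Subsingleton.elim i 0]
          rfl
        · rw [Subsingleton.elim i 0]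
          rfl
        · rfl
      right_inv := by
        rintro (i | i)
        · fin_cases i <;> rfl
        · rfl } with he₂
  have hvals : ∀ (g : ℕ) (ξ : Fin g → ℂ) (q : ℚ), 0 < q →
      numbers ξ q ∘ e₂ g = Helper8.EI.vals (fun (_ : Fin 1) z => Helper8.EI.FF z) Helper8.EI.YF ξ q := by
    intro g ξ q hq
    funext i
    rcases i with i | i | i
    · change F (q : ℂ) = Helper8.EI.FF (q : ℂ)
      exact hF _ (hqre q hq)
    · change F (1 / (2 * (q : ℂ))) = Helper8.EI.FF (1 / (2 * (q : ℂ)))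
      exact hF _ (hre _ (hqre q hq))
    · rfl
  have hrel : ∀ (g : ℕ) (ξ : Fin g → ℂ) (q : ℚ), 0 < q → ∀ (d : ℕ) (H : ℝ), Related (numbers ξ q) d H ↔
      Helper8.EI.Relat d H (Helper8.EI.vals (fun (_ : Fin 1) z => Helper8.EI.FF z) Helper8.EI.YF ξ q) := by
    intro g ξ q hq d H
    rw [← hvals g ξ q hq]
    exact (Helper8.EI.Relat_equiv (e₂ g) d H (numbers ξ q)).symm
  have hgen : ∀ (g : ℕ) (ξ : Fin g → ℂ),
      (AlgebraicIndependent ℚ (constants ξ) ↔
        ∀ d A : ℕ, ∃ q : ℚ, 0 < q ∧ q ≠ 1 ∧ ¬ Related (numbers ξ q) d ((height q : ℝ) ^ A)) ∧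
      (AlgebraicIndependent ℚ (constants ξ) ↔
        ∀ (d A : ℕ) (a b ε : ℝ), 0 < a → 0 < ε → ∃ C : ℝ, ∀ T : ℕ, 1 ≤ T →
          ({q : ℚ | a ≤ q ∧ (q : ℝ) ≤ b ∧ q ≠ 1 ∧ height q ≤ T ∧ Related (numbers ξ q) d ((T : ℝ) ^ A)}.ncard : ℝ) ≤
            C * (T : ℝ) ^ ε) := by
    intro g ξ
    obtain ⟨c1, c2⟩ := Helper8.EI.crit_zeta3 ξ
    constructor
    · rw [hAI, c1]
      refine forall_congr' fun d => forall_congr' fun A => exists_congr fun q => ?_
      constructor
      · rintro ⟨h0, h1, h2⟩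
        exact ⟨h0, h1, fun h => h2 ((hrel g ξ q h0 d _).1 h)⟩
      · rintro ⟨h0, h1, h2⟩
        exact ⟨h0, h1, fun h => h2 ((hrel g ξ q h0 d _).2 h)⟩
    · rw [hAI, c2]
      refine forall_congr' fun d => forall_congr' fun A => forall_congr' fun a => forall_congr' fun b =>
        forall_congr' fun ε => forall_congr' fun ha => forall_congr' fun _ => exists_congr fun C =>
        forall_congr' fun T => forall_congr' fun _ => ?_
      have hset : {q : ℚ | a ≤ q ∧ (q : ℝ) ≤ b ∧ q ≠ 1 ∧ height q ≤ T ∧ Related (numbers ξ q) d ((T : ℝ) ^ A)} =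
          {q : ℚ | a ≤ q ∧ (q : ℝ) ≤ b ∧ q ≠ 1 ∧ Helper8.EI.hq q ≤ T ∧
            Helper8.EI.Relat d ((T : ℝ) ^ A) (Helper8.EI.vals (fun (_ : Fin 1) z => Helper8.EI.FF z) Helper8.EI.YF ξ q)} := by
        ext q
        constructor
        · rintro ⟨h1, h2, h3, h4, h5⟩
          have h0 : 0 < q := by
            have : (0 : ℝ) < q := lt_of_lt_of_le ha h1
            exact_mod_cast this
          exact ⟨h1, h2, h3, h4, (hrel g ξ q h0 d _).1 h5⟩
        · rintro ⟨h1, h2, h3, h4, h5⟩
          have h0 : 0 < q := by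
            have : (0 : ℝ) < q := lt_of_lt_of_le ha h1
            exact_mod_cast this
          exact ⟨h1, h2, h3, h4, (hrel g ξ q h0 d _).2 h5⟩
      rw [hset]
  refine ⟨?_, ?_, hgen, ?_⟩
  · intro z hz
    rw [hF z hz, hF _ (hre z hz), ← hZ]
    exact Helper8.EI.FF_eq hz
  · obtain ⟨c1, c2⟩ := hgen 0 Fin.elim0
    haveI : Unique (Fin (0 + 1)) := inferInstanceAs (Unique (Fin 1))
    have hT : Transcendental ℚ (riemannZeta 3) ↔ AlgebraicIndependent ℚ (constants (Fin.elim0 : Fin 0 → ℂ)) := by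
      have h1 : constants (Fin.elim0 : Fin 0 → ℂ) = fun _ => riemannZeta 3 := by
        funext i
        rw [Subsingleton.elim i 0]
        rfl
      rw [h1]
      exact (algebraicIndependent_unique_type_iff (R := ℚ) (x := fun _ : Fin (0 + 1) => riemannZeta 3)).symm
    have e₃ : Fin 2 ⊕ Fin 0 ≃ Fin 2 := Equiv.sumEmpty (Fin 2) (Fin 0)
    have hr : ∀ (q : ℚ) (d : ℕ) (H : ℝ), Related ![F (q : ℂ), F (1 / (2 * (q : ℂ)))] d H ↔
        Related (numbers (Fin.elim0 : Fin 0 → ℂ) q) d H := by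
      intro q d H
      have h1 : ![F (q : ℂ), F (1 / (2 * (q : ℂ)))] ∘ (Equiv.sumEmpty (Fin 2) (Fin 0)) =
          numbers (Fin.elim0 : Fin 0 → ℂ) q := by
        funext i
        rcases i with i | i
        · rfl
        · exact i.elim0
      rw [← h1]
      exact (Helper8.EI.Relat_equiv (Equiv.sumEmpty (Fin 2) (Fin 0)) d H ![F (q : ℂ), F (1 / (2 * (q : ℂ)))]).symm
    simp only [hr]
    exact ⟨hT.trans c1, hT.trans c2⟩
  · intro m n g d L hL hL' A ε hε
    obtain ⟨B, C, T₀, hC, hT₀, H⟩ := Helper8.EI.transfer (κ := Fin 1) (h := Fin (g + 1)) (fun _ z => Helper8.EI.FF z)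
      (fun _ => Helper8.EI.FF_an) (fun _ ht => Helper8.EI.locInd_FF ht) m n d L hL (fun z hz => hL' z hz) A ε hε
    refine ⟨B, C, T₀, fun K _ _ hK ι ξ T hT => ?_⟩
    have hT0 : 0 ≤ T := by linarith
    obtain ⟨H1, H2⟩ := H K hK ι (constants ξ) T hT
    have hP : Points K ι L T = {x : K | Y120.HtLe K T x ∧ ι x ∈ L} := by
      ext x
      constructor
      · rintro ⟨h1, a, b, hb, hab, hx⟩
        exact ⟨⟨a, b, hb, Y120.house_le K hT0 fun φ => (hab φ).1, Y120.house_le K hT0 fun φ => (hab φ).2, hx⟩, h1⟩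
      · rintro ⟨⟨a, b, hb, ha, hb', hx⟩, h1⟩
        exact ⟨h1, a, b, hb, fun φ => ⟨(Y120.house_ge K _ φ).trans ha, (Y120.house_ge K _ φ).trans hb'⟩, hx⟩
    have hsub : {x : Fin n → K | (∀ j, x j ∈ Points K ι L T) ∧ ¬ Transfer K ι ξ d B A T x} ⊆
        {x : Fin n → K | (∀ j, Y120.HtLe K T (x j) ∧ ι (x j) ∈ L) ∧
          ¬ Helper8.EI.GoodAt d B (T ^ A) T ι (constants ξ)
            (fun z : Fin n × Fin 1 => Helper8.EI.FF (ι (x z.1)))} := by
      rintro x ⟨hx, hbad⟩
      have hx' : ∀ j, Y120.HtLe K T (x j) ∧ ι (x j) ∈ L := by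
        intro j
        have h1 := hx j
        rw [hP] at h1
        exact h1
      refine ⟨hx', fun hgood => hbad ?_⟩
      intro P hPd hPc w
      set e : Fin n ⊕ Fin (g + 1) ≃ (Fin n × Fin 1) ⊕ Fin (g + 1) :=
        Equiv.sumCongr (Equiv.prodUnique (Fin n) (Fin 1)).symm (Equiv.refl _) with he
      have h1 := hgood (MvPolynomial.rename e P) ?_ ?_ (fun z => w z.1)
      · rw [Helper8.EI.evc, Helper8.EI.evc, MvPolynomial.eval₂_rename, MvPolynomial.eval₂_rename] at h1
        have e1 : (Sum.elim (fun z : Fin n × Fin 1 => w z.1) (constants ξ)) ∘ e = Sum.elim w (constants ξ) := by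
          funext i
          rcases i with i | i
          · rfl
          · rfl
        have e2 : (Sum.elim (fun z : Fin n × Fin 1 => Helper8.EI.FF (ι (x z.1))) (constants ξ)) ∘ e =
            Sum.elim (fun j => F (ι (x j))) (constants ξ) := by
          funext i
          rcases i with i | i
          · exact (hF _ (hL' _ (hx' i).2)).symm
          · rfl
        rw [e1, e2] at h1
        refine h1.trans (mul_le_mul_of_nonneg_right (pow_le_pow_left₀ (by positivity) ?_ _) (norm_nonneg _))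
        refine mul_le_mul_of_nonneg_left (max_le_max le_rfl ?_) hT0
        exact (pi_norm_le_iff_of_nonneg (norm_nonneg _)).2 fun z => norm_le_pi_norm w z.1
      · intro i
        obtain ⟨i', rfl⟩ := e.surjective i
        rw [MvPolynomial.degreeOf_rename_of_injective e.injective]
        exact hPd i'
      · intro s φ
        have : s = Finsupp.mapDomain e (Finsupp.mapDomain e.symm s) := by
          rw [← Finsupp.mapDomain_comp]
          simp [Finsupp.mapDomain_id]
        rw [this, MvPolynomial.coeff_rename_mapDomain e e.injective]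
        exact hPc _ φ
    refine ⟨H1.subset hsub, ?_⟩
    rw [← hP] at H2
    exact le_trans (by exact_mod_cast Set.ncard_le_ncard hsub H1) H2

end Pool.Agent.Results.MP_48b3e2_nt.EichlerCriterion
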