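import Mathlib
import Pool.Agent.Helper98.AM.Num
import Pool.Agent.Helper98.AM.Cons
import Pool.Graph.R_pool_sql_team_seeded_b677cdb8.E8helper41.AZ.Beu2
import Pool.Graph.R_pool_sql_team_seeded_b677cdb8.E8helper77.AZ.Beu3

/-!
# A joint measure for `ζ(3)` and the exponential versions of Beukers's triple integral

Beukers's integrals for Apery's linear forms in `1`, `ζ(3)` are `1/2 ∫ f^n / (1 - (1 - x y) z) dx dy dz` (integral over
the unit cube), `f = x y z (1 - x) (1 - y) (1 - z) / (1 - (1 - x y) z)`. Let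
`I_j(t) = 1/2 ∫ f^j exp (t f) / (1 - (1 - x y) z) dx dy dz`, so `I_0(0) = ζ(3)`. Then `I_j(t) = ζ(3) A_j(t) - B_j(t)`
with `A_j(t) = ∑ a_{n+j} t^n / n!`, `B_j(t) = ∑ b_{n+j} t^n / n!`, `a` and `b` Apery's sequences.

For every finite set `S` of pairs `p = (j, t)` (`j < 4`, `t` a positive rational number), and every choice of one of the
numbers `ζ(3)`, `I_p` (`p ∈ S`), say `v`, polynomials `P` and `Q` with integer coefficients, of bounded degree and
height `≤ H`, cannot have both values `|P(v; e, A_p)|` and `|Q(e, A_p; the other numbers)|` smaller than `c / H^κ`.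
So for every `H` at most one of the numbers `ζ(3)`, `I_p` is close to an algebraic number of bounded degree and of height
`≤ H`. The same is proved with a second block, `ζ(2)` and the exponential double integrals.
-/

set_option autoImplicit false

namespace Pool.Agent.Results.MP_48b3e2_nt.MeasureWithAperyIntegrals

open MvPolynomial Pool.Agent.E8helper42.AZ Pool.Agent.Helper98.AM

/-! ### The numbers -/

/-- Euler's number -/
noncomputable abbrev e : ℝ := Real.exp 1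

/-- `ζ(3)` -/
noncomputable def zeta3 : ℝ := ∑' m : ℕ, 1 / ((m : ℝ) + 1) ^ 3

/-- the function whose powers occur in Beukers's triple integrals -/
noncomputable def f3 (x y z : ℝ) : ℝ := x * y * z * (1 - x) * (1 - y) * (1 - z) / (1 - (1 - x * y) * z)

/-- the open unit cube -/
def cube : Set (ℝ × ℝ × ℝ) := Set.Ioo 0 1 ×ˢ Set.Ioo 0 1 ×ˢ Set.Ioo 0 1

/-- `I_j(t) = 1/2 ∫ f^j exp (t f) / (1 - (1 - x y) z) dx dy dz`, the integral being over the unit cube -/
noncomputable def I3 (j : ℕ) (t : ℝ) : ℝ :=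
  1 / 2 * ∫ p in cube, f3 p.1 p.2.1 p.2.2 ^ j * Real.exp (t * f3 p.1 p.2.1 p.2.2) / (1 - (1 - p.1 * p.2.1) * p.2.2)

/-- `ζ(2)` -/
noncomputable def zeta2 : ℝ := ∑' m : ℕ, 1 / ((m : ℝ) + 1) ^ 2

/-- the function whose powers occur in Beukers's double integrals -/
noncomputable def f2 (x y : ℝ) : ℝ := x * y * (1 - x) * (1 - y) / (1 - x * y)

/-- the open unit square -/
def square : Set (ℝ × ℝ) := Set.Ioo 0 1 ×ˢ Set.Ioo 0 1

/-- the double integral `∫ f^j exp (t f) / (1 - x y) dx dy` over the unit square -/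
noncomputable def I2 (j : ℕ) (t : ℝ) : ℝ :=
  ∫ p in square, f2 p.1 p.2 ^ j * Real.exp (t * f2 p.1 p.2) / (1 - p.1 * p.2)

/-- the pairs `(j, t)` with `j < m` and `t` a positive rational number -/
abbrev Pairs (m : ℕ) := {p : ℕ × ℚ // p.1 < m ∧ 0 < p.2}

/-- `∑ c_{n+j} t^n / n!` for the pair `(j, t)` -/
noncomputable def expSum (c : ℕ → ℚ) (j : ℕ) (t : ℚ) : ℝ := ∑' n : ℕ, (c (n + j) : ℝ) * (t : ℝ) ^ n / (n.factorial : ℝ)

/-- Apery's recurrence for `ζ(3)` -/
def AperyRec3 (c : ℕ → ℚ) : Prop := ∀ n : ℕ, ((n : ℚ) + 2) ^ 3 * c (n + 2) -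
  (34 * ((n : ℚ) + 1) ^ 3 + 51 * ((n : ℚ) + 1) ^ 2 + 27 * ((n : ℚ) + 1) + 5) * c (n + 1) + ((n : ℚ) + 1) ^ 3 * c n = 0

/-- Apery's recurrence for `ζ(2)`, for the sequences with alternating signs -/
def AperyRec2 (c : ℕ → ℚ) : Prop := ∀ n : ℕ, ((n : ℚ) + 2) ^ 2 * c (n + 2) +
  (11 * ((n : ℚ) + 1) ^ 2 + 11 * ((n : ℚ) + 1) + 3) * c (n + 1) - ((n : ℚ) + 1) ^ 2 * c n = 0

/-- `(a, b)` are Apery's sequences for `ζ(3)` -/
def Apery3 (a b : ℕ → ℚ) : Prop := (a 0 = 1 ∧ a 1 = 5 ∧ AperyRec3 a) ∧ (b 0 = 0 ∧ b 1 = 6 ∧ AperyRec3 b)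

/-- `(a, b)` are Apery's sequences for `ζ(2)`, with alternating signs -/
def Apery2 (a b : ℕ → ℚ) : Prop := (a 0 = 1 ∧ a 1 = -3 ∧ AperyRec2 a) ∧ (b 0 = 0 ∧ b 1 = -5 ∧ AperyRec2 b)

/-- the numbers `∑ c_{n+j} t^n / n!`, `(j, t) ∈ S` -/
noncomputable def ser {m : ℕ} (c : ℕ → ℚ) (S : Finset (Pairs m)) (p : S) : ℝ := expSum c p.1.1.1 p.1.1.2

/-- the numbers `ζ(3)` (for `none`) and `I_j(t)`, `(j, t) ∈ S` -/
noncomputable def val3 (S : Finset (Pairs 4)) (o : Option S) : ℝ := o.elim zeta3 (fun p => I3 p.1.1.1 p.1.1.2)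

/-- the numbers `ζ(2)` (for `none`) and the double integrals for the pairs in `S` -/
noncomputable def val2 (S : Finset (Pairs 3)) (o : Option S) : ℝ := o.elim zeta2 (fun p => I2 p.1.1.1 p.1.1.2)

/-! ### Polynomials and algebraic numbers of bounded degree and height -/

/-- `P` is not zero, has degree at most `d` and coefficients of absolute value at most `H` -/
def Bounded {ι : Type} (d : ℕ) (H : ℝ) (P : MvPolynomial ι ℤ) : Prop :=
  P ≠ 0 ∧ P.totalDegree ≤ d ∧ ∀ s, |((P.coeff s : ℤ) : ℝ)| ≤ H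

/-- `α` is a root of a nonzero polynomial of degree at most `d` with integer coefficients of absolute value at
most `H` -/
def AlgBounded (d : ℕ) (H : ℝ) (α : ℂ) : Prop :=
  ∃ p : Polynomial ℤ, p ≠ 0 ∧ p.natDegree ≤ d ∧ (∀ n, |((p.coeff n : ℤ) : ℝ)| ≤ H) ∧ Polynomial.aeval α p = 0

/-- a measure of algebraic independence for the family `θ` -/
def HasMeasure {ι : Type} (θ : ι → ℝ) : Prop := ∀ d : ℕ, ∃ c : ℝ, 0 < c ∧ ∃ κ : ℕ, ∀ H : ℝ, 1 ≤ H →
  ∀ P : MvPolynomial ι ℤ, Bounded d H P → c / H ^ κ ≤ |aeval θ P|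

/-- a joint measure for the families `θ` and `η` -/
def JointMeasure {ι κ : Type} (θ : ι → ℝ) (η : κ → ℝ) : Prop := ∀ d : ℕ, ∃ c : ℝ, 0 < c ∧ ∃ k : ℕ, ∀ H : ℝ, 1 ≤ H →
  ∀ (P : MvPolynomial ι ℤ) (Q : MvPolynomial κ ℤ), Bounded d H P → Bounded d H Q →
    c / H ^ k ≤ |aeval θ P| ∨ c / H ^ k ≤ |aeval η Q|

/-- a joint measure for three families -/
def JointMeasure₃ {ι₁ ι₂ κ : Type} (θ₁ : ι₁ → ℝ) (θ₂ : ι₂ → ℝ) (η : κ → ℝ) : Prop :=
  ∀ d : ℕ, ∃ c : ℝ, 0 < c ∧ ∃ k : ℕ, ∀ H : ℝ, 1 ≤ H →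
  ∀ (P₁ : MvPolynomial ι₁ ℤ) (P₂ : MvPolynomial ι₂ ℤ) (Q : MvPolynomial κ ℤ),
    Bounded d H P₁ → Bounded d H P₂ → Bounded d H Q →
    c / H ^ k ≤ |aeval θ₁ P₁| ∨ c / H ^ k ≤ |aeval θ₂ P₂| ∨ c / H ^ k ≤ |aeval η Q|

/-- the number `v` together with the family `θ` -/
noncomputable def adj {ι : Type} (v : ℝ) (θ : ι → ℝ) (o : Option ι) : ℝ := o.elim v θ

/-- the numbers `ζ(3)`, `I_p` (`p ∈ S`) except the one with the name `o` -/
noncomputable def others3 (S : Finset (Pairs 4)) (o : Option S) (u : {u : Option S // u ≠ o}) : ℝ := val3 S u.1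

/-- the number `ζ(2)` and the double integrals except the one with the name `o` -/
noncomputable def others2 (S : Finset (Pairs 3)) (o : Option S) (u : {u : Option S // u ≠ o}) : ℝ := val2 S u.1

/-- the numbers `e`, `A_p` (`p ∈ S`), `A'_p` (`p ∈ S'`) -/
noncomputable def base (a a' : ℕ → ℚ) (S : Finset (Pairs 4)) (S' : Finset (Pairs 3)) : Option (S ⊕ S') → ℝ :=
  adj e (Sum.elim (ser a S) (ser a' S'))

/-- some polynomial of degree at most `d` and height at most `H` in the number with the name `o` (`ζ(3)` or `I_p`), `e`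
and the `A_p` has a value smaller than `ε` -/
def SmallPoly (a : ℕ → ℚ) (S : Finset (Pairs 4)) (d : ℕ) (H ε : ℝ) (o : Option S) : Prop :=
  ∃ P, Bounded d H P ∧ |aeval (adj (val3 S o) (adj e (ser a S))) P| < ε

/-- the number with the name `o` (`ζ(3)` or `I_p`) is at distance less than `ε` from an algebraic number of degree at
most `d` and height at most `H` -/
def CloseToAlg (S : Finset (Pairs 4)) (d : ℕ) (H ε : ℝ) (o : Option S) : Prop :=
  ∃ α : ℂ, AlgBounded d H α ∧ ‖(val3 S o : ℂ) - α‖ < ε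

/-- for some `c > 0`, `κ`, the property `X H (c / H ^ κ)` holds for at most one `o`, for every `H ≥ 1` -/
def AtMostOne {N : Type} (X : ℝ → ℝ → N → Prop) : Prop :=
  ∃ c : ℝ, 0 < c ∧ ∃ κ : ℕ, ∀ H : ℝ, 1 ≤ H → ∀ o o' : N, X H (c / H ^ κ) o → X H (c / H ^ κ) o' → o = o'

/-! ### Comparison -/

lemma zeta2_eq : zeta2 = Real.pi ^ 2 / 6 := by
  have h := hasSum_zeta_two
  have h2 := (hasSum_nat_add_iff' (f := fun n : ℕ => 1 / (n : ℝ) ^ 2) 1).2 h
  simp only [Finset.range_one, Finset.sum_singleton, Nat.cast_zero] at h2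
  rw [zeta2]
  have h3 : (fun m : ℕ => 1 / ((m : ℝ) + 1) ^ 2) = fun n : ℕ => 1 / (((n + 1 : ℕ)) : ℝ) ^ 2 := by
    funext n; push_cast; rfl
  rw [h3, h2.tsum_eq]
  norm_num

lemma I3_eq (j : ℕ) (t : ℝ) : I3 j t = ∑' n : ℕ, Jn (n + j) * t ^ n / (n.factorial : ℝ) := by
  have h := E8helper41.AZ.beu2 j t
  have h2 : I3 j t = 1 / 2 * ∫ p : ℝ × ℝ × ℝ in Set.Ioo 0 1 ×ˢ Set.Ioo 0 1 ×ˢ Set.Ioo 0 1,
    beu p.1 p.2.1 p.2.2 ^ j * Real.exp (t * beu p.1 p.2.1 p.2.2) / (1 - (1 - p.1 * p.2.1) * p.2.2) := rfl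
  rw [h2, h]
  ring

lemma I2_eq (j : ℕ) (t : ℝ) : I2 j t = ∑' n : ℕ, Jn2 (n + j) * t ^ n / (n.factorial : ℝ) :=
  E8helper77.AZ.beu3 j t

lemma hasMeasure_of {ι : Type} {θ : ι → ℝ} (h : E8helper79.ZM.PM θ) : HasMeasure θ := by
  intro d
  obtain ⟨c, hc, κ, h1⟩ := h d
  exact ⟨c, hc, κ, fun H hH P hP => h1 P hP.1 hP.2.1 H hH hP.2.2⟩

lemma joint_of {ι κ : Type} {θ : ι → ℝ} {η : κ → ℝ} (h : E8helper79.ZM.JM θ η) : JointMeasure θ η := by
  intro d
  obtain ⟨c, hc, κ, h1⟩ := h d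
  exact ⟨c, hc, κ, fun H hH P Q hP hQ => h1 P Q hP.1 hQ.1 hP.2.1 hQ.2.1 H hH hP.2.2 hQ.2.2⟩

theorem result : ∃ a b a' b' : ℕ → ℚ, Apery3 a b ∧ Apery2 a' b' ∧
    -- the integrals and Apery's sequences
    (∀ (j : ℕ) (t : ℚ), I3 j t = zeta3 * expSum a j t - expSum b j t ∧ I2 j t = zeta2 * expSum a' j t - expSum b' j t) ∧
    -- the measure of algebraic independence for `e` and all the `A_p`, `B_p`, `A'_p`, `B'_p`
    (∀ (S : Finset (Pairs 4)) (S' : Finset (Pairs 3)),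
      HasMeasure (adj e (Sum.elim (Sum.elim (ser a S) (ser b S)) (Sum.elim (ser a' S') (ser b' S'))))) ∧
    -- the joint measure: one of the numbers `ζ(3)`, `I_p` on one side, all the others on the other side
    (∀ (S : Finset (Pairs 4)) (o : Option S),
      JointMeasure (adj (val3 S o) (adj e (ser a S))) (Sum.elim (adj e (ser a S)) (others3 S o))) ∧
    -- for every `H`, at most one of the numbers is an exception, and at most one is close to an algebraic number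
    (∀ (S : Finset (Pairs 4)) (d : ℕ), AtMostOne (SmallPoly a S d) ∧ AtMostOne (CloseToAlg S d)) ∧
    -- the alternative
    (∀ (S : Finset (Pairs 4)) (o : Option S), AlgebraicIndependent ℚ (adj (val3 S o) (adj e (ser a S))) ∨
      HasMeasure (Sum.elim (adj e (ser a S)) (others3 S o))) ∧
    -- the joint measure for `ζ(3)` and `ζ(2)` together
    (∀ (S : Finset (Pairs 4)) (S' : Finset (Pairs 3)) (o : Option S) (o' : Option S'),
      JointMeasure₃ (adj (val3 S o) (base a a' S S')) (adj (val2 S' o') (base a a' S S'))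
        (Sum.elim (base a a' S S') (Sum.elim (others3 S o) (others2 S' o')))) := by
  classical
  obtain ⟨a, b, a', b', hab, hab', hJ, hJ', hI, hI', hind, hPM⟩ := all_meas
  have hlin : ∀ (j : ℕ) (t : ℚ), I3 j t = zeta3 * expSum a j t - expSum b j t := by
    intro j t
    rw [I3_eq]
    exact hI j t
  have hlin' : ∀ (j : ℕ) (t : ℚ), I2 j t = zeta2 * expSum a' j t - expSum b' j t := by
    intro j t
    rw [I2_eq, zeta2_eq]
    exact hI' j t
  have hPM2 : ∀ (S : Finset (Pairs 4)) (S' : Finset (Pairs 3)), E8helper79.ZM.PM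
      (fun o : Option ((S ⊕ S) ⊕ (S' ⊕ S')) => o.elim e
        (Sum.elim (Sum.elim (ser a S) (ser b S)) (Sum.elim (ser a' S') (ser b' S')))) := by
    intro S S'
    have h := hPM (Option ((S ⊕ S) ⊕ (S' ⊕ S')))
      (Option.map (Sum.map (Sum.map Subtype.val Subtype.val) (Sum.map Subtype.val Subtype.val)))
      (Option.map_injective (Function.Injective.sumMap
        (Function.Injective.sumMap Subtype.val_injective Subtype.val_injective)
        (Function.Injective.sumMap Subtype.val_injective Subtype.val_injective)))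
    convert h using 1
    funext o
    rcases o with _ | ((p | p) | (p | p)) <;> rfl
  have hPM1 : ∀ S : Finset (Pairs 4), E8helper79.ZM.PM
      (fun o : Option (S ⊕ S) => o.elim e (Sum.elim (ser a S) (ser b S))) := by
    intro S
    have h := (hPM2 S ∅).comp (g := Option.map Sum.inl) (Option.map_injective Sum.inl_injective)
    convert h using 1
    funext o
    rcases o with _ | (p | p) <;> rfl
  have hv3 : ∀ (S : Finset (Pairs 4)) (o : Option S), v1 zeta3 (ser a S) (ser b S) o = val3 S o := by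
    intro S o
    rcases o with _ | p
    · rfl
    · exact (hlin _ _).symm
  have hv2 : ∀ (S : Finset (Pairs 3)) (o : Option S), v1 zeta2 (ser a' S) (ser b' S) o = val2 S o := by
    intro S o
    rcases o with _ | p
    · rfl
    · exact (hlin' _ _).symm
  refine ⟨a, b, a', b', ⟨⟨hab.a0, hab.a1, hab.rec_a⟩, ⟨hab.b0, hab.b1, hab.rec_b⟩⟩,
    ⟨⟨hab'.a0, hab'.a1, hab'.rec_a⟩, ⟨hab'.b0, hab'.b1, hab'.rec_b⟩⟩, fun j t => ⟨hlin j t, hlin' j t⟩,
    fun S S' => hasMeasure_of (hPM2 S S'), ?_, ?_, ?_, ?_⟩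
  · intro S o
    have h := joint_of (single e zeta3 (ser a S) (ser b S) (hPM1 S) o)
    simp only [hv3] at h
    exact h
  · intro S d
    constructor
    · obtain ⟨c, hc, κ, h⟩ := cons_poly (z := zeta3) (hPM1 S) d
      refine ⟨c, hc, κ, fun H hH o o' => ?_⟩
      rintro ⟨P, ⟨h1, h2, h3⟩, h4⟩ ⟨P', ⟨h1', h2', h3'⟩, h4'⟩
      refine h H hH o o' ⟨P, h1, h2, h3, ?_⟩ ⟨P', h1', h2', h3', ?_⟩
      · rw [hv3]; exact h4
      · rw [hv3]; exact h4'
    · obtain ⟨c, hc, κ, h⟩ := cons_alg (z := zeta3) (hPM1 S) d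
      refine ⟨c, hc, κ, fun H hH o o' => ?_⟩
      rintro ⟨α, h1, h2⟩ ⟨β, h1', h2'⟩
      refine h H hH o o' ⟨α, h1, ?_⟩ ⟨β, h1', ?_⟩
      · rw [hv3]; exact h2
      · rw [hv3]; exact h2'
  · intro S o
    rcases cons_alt (z := zeta3) (hPM1 S) o with h | h
    · left
      rw [hv3] at h
      exact h
    · right
      simp only [hv3] at h
      exact hasMeasure_of h
  · intro S S' o o' d
    obtain ⟨c, hc, κ, h⟩ := double e zeta3 zeta2 (ser a S) (ser b S) (ser a' S') (ser b' S') (hPM2 S S') o o' d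
    refine ⟨c, hc, κ, fun H hH P₁ P₂ Q hP₁ hP₂ hQ => ?_⟩
    have h1 := h P₁ P₂ Q hP₁.1 hP₂.1 hQ.1 hP₁.2.1 hP₂.2.1 hQ.2.1 H hH hP₁.2.2 hP₂.2.2 hQ.2.2
    simp only [hv3, hv2] at h1
    exact h1

end Pool.Agent.Results.MP_48b3e2_nt.MeasureWithAperyIntegrals
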