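import Mathlib
import Pool.Agent.Helper71.OZ.Crit
import Pool.Agent.Helper71.OZ.Zeta
import Pool.Agent.Helper71.OZ.Bas

/-!
# `ζ(3)` and the space spanned by the odd zeta values, in bounded degree

Let `F` be a real number field and `E` an `F`-space of complex numbers which is a countable set and
contains `ζ(3), ζ(5), ζ(7), …`: for instance the `F`-space spanned by the odd zeta values, by all
multiple zeta values, or by all periods. Let `θ_1, …, θ_q` be arbitrary complex numbers. The numbers
`ζ(3), ζ(5), …` should be algebraically independent over `F(π)`. We prove in any bounded degree `D`: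

1. Let `V` be a subspace of `E` in the span of `1, θ_1, …, θ_q` (for instance `V = F ζ(3)`,
`θ_1 = ζ(3)`, `θ_2 = π`). For all `D`, `m` there is a direct decomposition `E = V ⊕ T_0 ⊕ ⋯ ⊕ T_m`
with infinite dimensional spaces `T_i` such that for **all** `n`, all `y_1, …, y_n`, in
`V ⊕ ⨁_(i ≠ j) T_i` for some `j`, which are independent over `F` modulo `V`, satisfy only trivial
relations of degree at most `D` with `θ_1, …, θ_q` over `F` (consequences of relations between
`θ_1, …, θ_q`).

2. For all `D`, `n` there is a basis `b_0, b_1, b_2, …` of `E` modulo `V` any `n` elements of which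
satisfy only trivial relations of degree at most `D` with `θ_1, …, θ_q` over `F`.

3. `ζ(3)` is transcendental if and only if for every `D` the space `E` (for instance the rational
space spanned by all odd zeta values) is a direct sum `T_0 ⊕ T_1` with `ζ(3) ∈ T_0`, `T_0`, `T_1` of
infinite dimension, such that all tuples in `T_0` and all tuples in `T_1` which are linearly
independent over `F` satisfy no nontrivial polynomial relation of degree at most `D` over `F`. There
is such a criterion for the algebraic independence of `ζ(3), θ_1, …, θ_q` too.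

4. (Quantitative.) Let `x_j = ∑_(l ≤ A) c_l C(j + l - 1, l) ζ(j + l)` with real `c_l`, not all zero for
even `l`: for instance `x_j = ζ(j)` (`A = 0`). Let `R` be the dimension of the `F`-space spanned by the
`x_j`, `j` odd, `b < j ≤ s`; it has at least the order `s^(1/4) / (log s)^(3/4)` (more exactly:
`[F : ℚ] (dim ⟨c_0, …, c_A⟩ + R) > S` if `s` is at least of the order `S^2 (b + A + S^2)`, up to
logarithms). Let `W` be an `F`-space of complex numbers of dimension `N`, for instance the polynomials
in `π` and `ζ(3)` of bounded degree, and let `y_1, …, y_k` be arbitrary complex numbers. If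
`N C(D + k, k) ≤ R`, the `k` numbers `y_i + ∑_j m_{ij} x_j` (`j` odd, `b < j ≤ s`) satisfy no
nontrivial relation of total degree at most `D` with coefficients in `W`, for all matrices `(m_ij)`
over `F` outside the zeros of a polynomial `G ≠ 0` of degree at most `N C(D + k, k) D`. So `k` may be a
power `s^(1 / (4 D) - ε)` of `s`. (If the `x_j` were a basis of a number field of degree `R`, there
would always be relations for `y = 0`, `W = F`, `C(D + k, k) > R`.) For instance (`k = 1`,
`y_1 = ζ(3)`, `b = 3`), for almost all rational `m_5, m_7, …, m_s` the number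
`ζ(3) + m_5 ζ(5) + m_7 ζ(7) + ⋯ + m_s ζ(s)` is not algebraic of degree `≤ D`, where `s` has the order
`D^4 (log D)^3`; and it is not a zero of a nonzero polynomial of degree `≤ D` whose coefficients are
polynomials in `π` of degree `< N`, where `s` has the order `(N D)^4 (log (N D))^3`.

The proof. The lower bound for `R` is the theorem of `Pool.Agent.Helper76.RJ` (method of Ball and
Rivoal with Siegel's lemma); for 1, 2, 3 we need only that the dimension of `E` is infinite. The
generic combinations are treated with a derivation (`Pool.Agent.Helper71.OZ.Lin`): if `w_1, …, w_N` are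
linearly independent over `F`, `x = y + ∑ w_j X_j`, and `N` products `t_s x^(i(s))` (with independent
`t_s` for each exponent) were linearly dependent over `F[X]`, there would be a derivation of `F[X]`
which is zero at the quotients of the coefficients and nonzero at `x`; this contradicts the minimality
of the degree of the relation. This works with the total degree and with `N = dim W · C(D + k, k)`
numbers. The decompositions are constructed as in `MP_8da9ea_nt.GoodDecompositions`: an element `τ` of
`E` which has to be added is written as `τ_0 + ⋯ + τ_m` with `τ_1, …, τ_m` generic over the field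
generated by the spaces constructed so far.
-/

set_option autoImplicit false

open MvPolynomial

noncomputable section

namespace Pool.Agent.Results.MP_48b3e2_nt.OddZetaDecompositions

/-- `E` is a countable set and contains `ζ(3), ζ(5), ζ(7), …`. -/
def ContainsOddZetas (F : IntermediateField ℚ ℝ) (E : Submodule F ℂ) : Prop :=
  (E : Set ℂ).Countable ∧ ∀ j : ℕ, Odd j → 3 ≤ j → riemannZeta j ∈ E

/-- `E` is the direct sum of `V` and of the infinite dimensional spaces `T_i`. -/
structure IsDirectSum (F : IntermediateField ℚ ℝ) (E V : Submodule F ℂ) {m : ℕ}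
    (T : Fin (m + 1) → Submodule F ℂ) : Prop where
  sum : V ⊔ ⨆ i, T i = E
  unique : ∀ v ∈ V, ∀ t : Fin (m + 1) → ℂ, (∀ i, t i ∈ T i) → v + ∑ i, t i = 0 → v = 0 ∧ t = 0
  infinite : ∀ i, ¬ Module.Finite F (T i)

/-- `b` is a basis of `E` modulo `V`. -/
structure IsBasisModulo (F : IntermediateField ℚ ℝ) (E V : Submodule F ℂ) (b : ℕ → ℂ) : Prop where
  independent : LinearIndependent F (fun l => V.mkQ (b l))
  generates : V ⊔ Submodule.span F (Set.range b) = E

/-- Every polynomial relation of total degree at most `D`, with coefficients in `F`, between the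
numbers `θ` and the numbers `y` is an identity in the latter. -/
def OnlyTrivialRelations (F : IntermediateField ℚ ℝ) (D : ℕ) {q n : ℕ} (θ : Fin q → ℂ)
    (y : Fin n → ℂ) : Prop :=
  ∀ Q : MvPolynomial (Fin q ⊕ Fin n) F, Q.totalDegree ≤ D → aeval (Sum.elim θ y) Q = 0 →
    ∀ z : Fin n → ℂ, aeval (Sum.elim θ z) Q = 0

/-- There is no relation of total degree at most `D`, with coefficients in `F`, between the
numbers `θ` and the numbers `y`, except `0 = 0`. -/
def NoRelations (F : IntermediateField ℚ ℝ) (D : ℕ) {q n : ℕ} (θ : Fin q → ℂ)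
    (y : Fin n → ℂ) : Prop :=
  ∀ Q : MvPolynomial (Fin q ⊕ Fin n) F, Q.totalDegree ≤ D → aeval (Sum.elim θ y) Q = 0 → Q = 0

/-- The odd numbers `j` with `b < j ≤ s`. -/
def window (b s : ℕ) : Finset ℕ := (Finset.Ioc b s).filter Odd

/-- The number `x_j = ∑_(l ≤ A) c_l C(j + l - 1, l) ζ(j + l)`. -/
def jet (A : ℕ) (c : ℕ → ℝ) (j : ℕ) : ℂ :=
  ∑ l ∈ Finset.range (A + 1), (c l : ℂ) * ((j + l - 1).choose l : ℂ) * riemannZeta ((j + l : ℕ) : ℂ)

/-- `s ≥ 2^41 S^2 (L + 1) (b + A + S^2 (L + 1)^2)`, where `L` is the integral part of `log S / log 2`. -/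
def Large (b A S s : ℕ) : Prop :=
  2 ^ 41 * (S ^ 2 * (Nat.log 2 S + 1) * ((b + A) + S ^ 2 * (Nat.log 2 S + 1) ^ 2)) ≤ s

open Pool.Agent.Helper71.OZ Pool.Agent.Helper71.ET

theorem jet_eq {A : ℕ} (c : ℕ → ℝ) {j : ℕ} (hj : 2 ≤ j) :
    ((Pool.Agent.Helper76.RJ.xj A c j : ℝ) : ℂ) = jet A c j := by
  rw [jet, Pool.Agent.Helper76.RJ.xj, Complex.ofReal_sum]
  refine Finset.sum_congr rfl fun l _ => ?_
  rw [Complex.ofReal_mul, Complex.ofReal_mul, zr_eq (by omega)]
  push_cast
  rfl

/-- **Main result.** -/
theorem result (F : IntermediateField ℚ ℝ) [FiniteDimensional ℚ F] :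
    -- decompositions and bases
    (∀ (E V : Submodule F ℂ) (D q n : ℕ) (θ : Fin q → ℂ), ContainsOddZetas F E → V ≤ E →
      V ≤ Submodule.span F (insert 1 (Set.range θ)) →
      (∃ T : Fin (n + 1) → Submodule F ℂ, IsDirectSum F E V T ∧
        ∀ (j : Fin (n + 1)) (r : ℕ) (y : Fin r → ℂ), (∀ l, y l ∈ V ⊔ ⨆ i : {i // i ≠ j}, T i) →
          LinearIndependent F (fun l => V.mkQ (y l)) → OnlyTrivialRelations F D θ y) ∧
      (∃ b : ℕ → ℂ, IsBasisModulo F E V b ∧
        ∀ e : Fin n → ℕ, Function.Injective e → OnlyTrivialRelations F D θ (fun l => b (e l)))) ∧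
    -- the transcendence of `ζ(3)`
    (∀ (E : Submodule F ℂ), ContainsOddZetas F E →
      (Transcendental ℚ (riemannZeta 3) ↔
        ∀ D : ℕ, ∃ T : Fin 2 → Submodule F ℂ, IsDirectSum F E ⊥ T ∧ riemannZeta 3 ∈ T 0 ∧
          ∀ (i : Fin 2) (r : ℕ) (y : Fin r → ℂ), (∀ l, y l ∈ T i) → LinearIndependent F y →
            NoRelations F D Fin.elim0 y) ∧
      ∀ (q : ℕ) (θ : Fin q → ℂ),
        (AlgebraicIndependent ℚ (Fin.cons (riemannZeta 3) θ : Fin (q + 1) → ℂ) ↔
          ∀ D : ℕ, ∃ T : Fin 2 → Submodule F ℂ, IsDirectSum F E ⊥ T ∧ riemannZeta 3 ∈ T 0 ∧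
            ∀ (i : Fin 2) (r : ℕ) (y : Fin r → ℂ), (∀ l, y l ∈ T i) → LinearIndependent F y →
              NoRelations F D θ y)) ∧
    -- combinations of the zeta values in a window
    (∀ (b A s : ℕ) (c : ℕ → ℝ), 1 ≤ b → (∃ l ≤ A, c l ≠ 0 ∧ Even l) →
      (∀ S : ℕ, 1 ≤ S → Large b A S s → S < Module.finrank ℚ F *
        (Module.finrank F (Submodule.span F (c '' Set.Iic A)) +
          Module.finrank F (Submodule.span F (Set.range fun j : window b s => jet A c j)))) ∧
      ∀ (k D : ℕ) (W : Submodule F ℂ), Module.Finite F W →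
        Module.finrank F W * (D + k).choose k ≤
          Module.finrank F (Submodule.span F (Set.range fun j : window b s => jet A c j)) →
        ∀ y : Fin k → ℂ, ∃ G : MvPolynomial (Fin k × window b s) F, G ≠ 0 ∧
          G.totalDegree ≤ Module.finrank F W * (D + k).choose k * D ∧
          ∀ m : Fin k → window b s → F, MvPolynomial.eval (fun p => m p.1 p.2) G ≠ 0 →
            ∀ Q : MvPolynomial (Fin k) ℂ, Q.totalDegree ≤ D → (∀ e, Q.coeff e ∈ W) →
              MvPolynomial.eval (fun i => y i + ∑ j : window b s,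
                ((m i j : ℝ) : ℂ) * jet A c j) Q = 0 → Q = 0) := by
  classical
  have hcrit : ∀ (E : Submodule F ℂ), ContainsOddZetas F E → ∀ (q : ℕ) (θ : Fin q → ℂ),
        (AlgebraicIndependent ℚ (Fin.cons (riemannZeta 3) θ : Fin (q + 1) → ℂ) ↔
          ∀ D : ℕ, ∃ T : Fin 2 → Submodule F ℂ, IsDirectSum F E ⊥ T ∧ riemannZeta 3 ∈ T 0 ∧
            ∀ (i : Fin 2) (r : ℕ) (y : Fin r → ℂ), (∀ l, y l ∈ T i) → LinearIndependent F y →
              NoRelations F D θ y) := by
    intro E hE q θ
    have h3 : riemannZeta 3 ∈ E := by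
      have := hE.2 3 (by decide) le_rfl
      exact_mod_cast this
    have h30 : riemannZeta 3 ≠ 0 := riemannZeta_ne_zero_of_one_le_re (by norm_num)
    have halg : AlgebraicIndependent ℚ (Fin.cons (riemannZeta 3) θ : Fin (q + 1) → ℂ) ↔
        AlgebraicIndependent F (Fin.cons (riemannZeta 3) θ : Fin (q + 1) → ℂ) :=
      Algebra.IsAlgebraic.algebraicIndependent_iff ℚ F
    rw [halg, crit hE.1 (not_finite F hE.2) θ h3 h30]
    refine forall_congr' fun D => exists_congr fun T => ?_
    constructor
    · rintro ⟨g1, g2, g3, g4, g5⟩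
      refine ⟨⟨by rw [bot_sup_eq]; exact g1, fun v hv t ht h0 => ?_, g3⟩, g4, g5⟩
      have hv0 : v = 0 := (Submodule.mem_bot F).1 hv
      rw [hv0, zero_add] at h0
      exact ⟨hv0, g2 t ht h0⟩
    · rintro ⟨g1, g4, g5⟩
      refine ⟨by rw [← g1.sum, bot_sup_eq], fun t ht h0 => ?_, g1.infinite, g4, g5⟩
      exact (g1.unique 0 (Submodule.zero_mem _) t ht (by rw [zero_add, h0])).2
  refine ⟨?_, ?_, ?_⟩
  · intro E V D q n θ hE hVE hVA
    obtain ⟨T, h1, h2, h3, h4⟩ := dec_any (κ := F) (C := ℂ) hE.1 (not_finite F hE.2) θ hVE hVA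
      (D := max D 1) (le_max_right _ _) n
    have h5 : ∀ (j : Fin (n + 1)) (r : ℕ) (y : Fin r → ℂ),
        (∀ l, y l ∈ V ⊔ ⨆ i : {i // i ≠ j}, T i) →
        LinearIndependent F (fun l => V.mkQ (y l)) → OnlyTrivialRelations F D θ y := by
      intro j r y hy hli Q hQ h0 z
      refine h4 j r y hy (fun c hc => ?_) Q (hQ.trans (le_max_left _ _)) h0 z
      have h6 : ∑ l, c l • V.mkQ (y l) = 0 := by
        rw [← (Submodule.Quotient.mk_eq_zero V).2 hc, ← Submodule.mkQ_apply, map_sum]
        exact Finset.sum_congr rfl fun l _ => (map_smul V.mkQ _ _).symm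
      exact funext fun l => Fintype.linearIndependent_iff.1 hli c h6 l
    refine ⟨⟨T, ⟨h1, h2, h3⟩, h5⟩, ?_⟩
    obtain ⟨b, g, hb1, hb2, hb3⟩ := exists_basis hE.1 h1 h2 h3
    refine ⟨b, ⟨hb2, hb3⟩, fun e he => ?_⟩
    obtain ⟨j, hj⟩ : ∃ j : Fin (n + 1), ∀ l, g (e l) ≠ j := by
      by_contra hcon
      have h6 : Function.Surjective (fun l => g (e l)) := fun j => by
        by_contra h7
        exact hcon ⟨j, fun l h8 => h7 ⟨l, h8⟩⟩
      have h7 := Fintype.card_le_of_surjective _ h6
      rw [Fintype.card_fin, Fintype.card_fin] at h7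
      omega
    refine h5 j n _ (fun l => ?_) (hb2.comp e he)
    exact Submodule.mem_sup_right (le_iSup (fun i : {i : Fin (n + 1) // i ≠ j} => T i)
      ⟨g (e l), hj l⟩ (hb1 (e l)))
  · intro E hE
    refine ⟨?_, hcrit E hE⟩
    rw [← hcrit E hE 0 Fin.elim0, ← algebraicIndependent_unique_type_iff (ι := Fin 1)
      (x := fun _ => riemannZeta 3)]
    have h6 : (Fin.cons (riemannZeta 3) Fin.elim0 : Fin (0 + 1) → ℂ) = fun _ => riemannZeta 3 := by
      funext i
      fin_cases i
      rfl
    rw [h6]
  · intro b A s c hb hc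
    have hjet : (fun j : window b s => ((Pool.Agent.Helper76.RJ.xj A c j : ℝ) : ℂ)) =
        fun j : window b s => jet A c j := by
      funext j
      exact jet_eq c (by have := (mem_win.1 j.2).1; omega)
    have hfin : Module.Finite F (Submodule.span F (c '' Set.Iic A)) :=
      FiniteDimensional.span_of_finite F ((Set.finite_Iic A).image c)
    refine ⟨fun S hS hs => ?_, fun k D W hW hd y => ?_⟩
    · have h1 := rank_lower F hS hs c hc (Submodule.span F (c '' Set.Iic A)) le_rfl
        (fun l hl => Submodule.subset_span ⟨l, hl, rfl⟩)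
      rw [← hjet]
      exact h1
    · obtain ⟨G, h1, h2, h3⟩ := lin_total (κ := F) (K := ℂ) (fun j : window b s => jet A c j) k D
        (Module.finrank F W) y W hW le_rfl hd
      exact ⟨G, h1, h2, fun m hm Q hQ hQW h0 => h3 m hm Q hQW hQ h0⟩

end Pool.Agent.Results.MP_48b3e2_nt.OddZetaDecompositions
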